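import Pool.Agent.Helper17.SLD.Goals
import Pool.Agent.Helper42.SLC.Final

/-!
# Project SLD (MP_fc6b1e_nt), packet FIN: too many relations are contradictory
-/

namespace Pool.Agent.Helper17.SLD.PkFIN

open Pool.Agent.Helper17.SLD
open Pool.Agent.Helper17.SL Pool.Agent.Helper42.SLC
open Pool.Agent.Helper51.SigLeo Pool.Agent.Helper51.SixExp NumberField Module TensorProduct

set_option linter.unusedSectionVars false

universe u v w x y z

/-- Every embedding of a number field in an extension of an algebraically closed field lifts. -/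
theorem exists_lift_range {K A B : Type*} [Field K] [NumberField K] [Field A] [CharZero A]
    [IsAlgClosed A] [Field B] (ι : A →+* B) (φ : K →+* B) :
    ∃ σ : K →+* A, ι.comp σ = φ := by
  have hmem : ∀ x : K, φ x ∈ ι.range := by
    intro x
    have hint : IsIntegral ℚ x := Algebra.IsIntegral.isIntegral x
    have h0 : minpoly ℚ x ≠ 0 := minpoly.ne_zero hint
    have hs : ((minpoly ℚ x).map (algebraMap ℚ A)).Splits := IsAlgClosed.splits _
    refine hs.mem_range_of_isRoot (Polynomial.map_ne_zero h0) ?_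
    rw [Polynomial.map_map, Polynomial.IsRoot.def, Polynomial.eval_map]
    have h1 : ι.comp (algebraMap ℚ A) = φ.comp (algebraMap ℚ K) := Subsingleton.elim _ _
    rw [h1, ← Polynomial.hom_eval₂]
    have h2 : Polynomial.eval₂ (algebraMap ℚ K) x (minpoly ℚ x) = 0 := minpoly.aeval ℚ x
    rw [h2, map_zero]
  have hinj : Function.Injective ι.rangeRestrict := fun a b h ↦
    ι.injective (congrArg Subtype.val h)
  let e : A ≃+* ι.range := RingEquiv.ofBijective ι.rangeRestrict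
    ⟨hinj, ι.rangeRestrict_surjective⟩
  refine ⟨(e.symm : ι.range →+* A).comp (φ.codRestrict ι.range hmem), ?_⟩
  ext x
  have h3 : e (e.symm (φ.codRestrict ι.range hmem x)) = φ.codRestrict ι.range hmem x :=
    e.apply_symm_apply _
  exact congrArg Subtype.val h3

/-- Descent of the values of finitely many characters. -/
theorem descentN {N : Type v} [Field N] [NumberField N] {k₀ : Type u} [Field k₀]
    [Algebra k₀ N] {Ω : Type w} [Field Ω] [CharZero Ω] [Finite (N ≃ₐ[k₀] N)]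
    [IsAlgClosed Ω] {k : Type x} [Field k] (ιp : Ω →+* k) {J : Type} [Fintype J]
    (θ : J → (N ≃ₐ[k₀] N) →* kˣ) :
    ∃ (E : IntermediateField ℚ Ω) (_ : NumberField E) (θ' : J → (N ≃ₐ[k₀] N) →* Eˣ),
      ∀ j g, ιp (((θ' j g : Eˣ) : E) : Ω) = θ j g := by
  classical
  let χ : (J → (N ≃ₐ[k₀] N)) →* kˣ :=
    { toFun := fun g ↦ ∏ j, θ j (g j)
      map_one' := by simp
      map_mul' := fun g g' ↦ by simp [Finset.prod_mul_distrib] }
  obtain ⟨E, hE, χ', hχ'⟩ := PkGA1.thm Ω k ιp (J → (N ≃ₐ[k₀] N)) χ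
  refine ⟨E, hE, fun j ↦ χ'.comp (MonoidHom.mulSingle (fun _ : J ↦ (N ≃ₐ[k₀] N)) j),
    fun j g ↦ ?_⟩
  have h1 := hχ' (Pi.mulSingle j g)
  have h2 : χ (Pi.mulSingle j g) = θ j g := by
    show ∏ i, θ i (Pi.mulSingle (M := fun _ : J ↦ (N ≃ₐ[k₀] N)) j g i) = θ j g
    rw [Finset.prod_eq_single j]
    · rw [Pi.mulSingle_eq_same]
    · intro i _ hij
      rw [Pi.mulSingle_eq_of_ne hij, map_one]
    · intro h; exact absurd (Finset.mem_univ _) h
  rw [h2] at h1
  exact h1

/-- The vectors orthogonal to `n` independent vectors of a space of dimension `n + 1` are on a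
line. -/
theorem line_of_independent {k : Type*} [Field k] {n : ℕ} (v : Fin n → Fin (n + 1) → k)
    (hv : LinearIndependent k v) (c c' : Fin (n + 1) → k) (hc : c ≠ 0)
    (h : ∀ j, ∑ m, c m * v j m = 0) (h' : ∀ j, ∑ m, c' m * v j m = 0) :
    ∃ a : k, c' = a • c := by
  classical
  have h1 : (Matrix.of v).rank = Fintype.card (Fin n) := by
    apply LinearIndependent.rank_matrix
    exact hv
  have h2 := LinearMap.finrank_range_add_finrank_ker (Matrix.of v).mulVecLin
  have h3 : finrank k (LinearMap.range (Matrix.of v).mulVecLin) = n := by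
    rw [Fintype.card_fin] at h1
    exact h1
  have h4 : finrank k (LinearMap.ker (Matrix.of v).mulVecLin) = 1 := by
    rw [h3, Module.finrank_fin_fun] at h2
    omega
  have hmem : ∀ d : Fin (n + 1) → k, (∀ j, ∑ m, d m * v j m = 0) →
      d ∈ LinearMap.ker (Matrix.of v).mulVecLin := by
    intro d hd
    rw [LinearMap.mem_ker]
    funext j
    show ∑ m, v j m * d m = 0
    rw [← hd j]
    exact Finset.sum_congr rfl fun m _ ↦ mul_comm _ _
  have h5 := (finrank_eq_one_iff_of_nonzero' (⟨c, hmem c h⟩ :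
    LinearMap.ker (Matrix.of v).mulVecLin) (fun h0 ↦ hc (congrArg Subtype.val h0))).mp h4
    ⟨c', hmem c' h'⟩
  obtain ⟨a, ha⟩ := h5
  exact ⟨a, (congrArg Subtype.val ha).symm⟩

/-- **FIN**. -/
theorem thm (hRANK : S_RANK.{w, x, w, v}) (hND : S_ND.{u, v, w, x, w}) :
    S_FIN.{u, v, w, x} := by
  intro F _ _ _ N _ _ _ _ _ Ω _ _ _ _ p _ k _ _ _ _ ιp Λ θ D n η s σ hn hσ hodd hev hη hηpm hv
    hrel hD
  classical
  have hchar : CharZero k := charZero_of_padic p (k := k)
  obtain ⟨n, rfl⟩ : ∃ n', n = n' + 1 := ⟨n - 1, by omega⟩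
  have hnn : n + 1 - 1 = n := rfl
  obtain ⟨v, hv⟩ := hv
  -- the lift of the frame
  have hlift : ∀ m, ∃ τ : N →+* Ω, ιp.comp τ = σ m := fun m ↦ exists_lift_range ιp (σ m)
  choose τ hτ using hlift
  have hτinj : Function.Injective (fun m ↦ (τ m).comp (algebraMap F N)) := by
    intro m m' hmm
    apply hσ
    show (σ m).comp (algebraMap F N) = (σ m').comp (algebraMap F N)
    rw [← hτ m, ← hτ m', RingHom.comp_assoc, RingHom.comp_assoc]
    exact congrArg (fun z ↦ ιp.comp z) hmm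
  -- the descent
  obtain ⟨E, hE, ψ, hψ⟩ := descentN ιp (J := Option (Fin D)) (fun o ↦ o.elim θ η)
  set lam : E →+* Ω := algebraMap E Ω with hlam
  set j : E →+* k := ιp.comp lam with hjdef
  set θ₁ : (N ≃ₐ[F] N) →* Eˣ := ψ none with hθ₁
  set η₁ : Fin D → (N ≃ₐ[F] N) →* Eˣ := fun i ↦ ψ (some i) with hη₁
  have hjθ : ∀ g, j ((θ₁ g : Eˣ) : E) = θ g := fun g ↦ hψ none g
  have hjη : ∀ i g, j ((η₁ i g : Eˣ) : E) = η i g := fun i g ↦ hψ (some i) g
  have hjθη : ∀ i g, j (((θ₁ * η₁ i) g : Eˣ) : E) = (((θ * η i) g : kˣ) : k) := by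
    intro i g
    rw [MonoidHom.mul_apply, MonoidHom.mul_apply, Units.val_mul, Units.val_mul, map_mul, hjθ,
      hjη]
  have hval : ∀ (φ : (N ≃ₐ[F] N) →* Eˣ) (φ' : (N ≃ₐ[F] N) →* kˣ),
      (∀ g, j ((φ g : Eˣ) : E) = φ' g) → ∀ g, (φ' g = 1 → φ g = 1) ∧ (φ' g = -1 → φ g = -1) := by
    intro φ φ' h g
    constructor
    · intro h1
      apply Units.ext
      apply j.injective
      rw [h, h1, Units.val_one, Units.val_one, map_one]
    · intro h1
      apply Units.ext
      apply j.injective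
      rw [h, h1, Units.val_neg, Units.val_neg, Units.val_one, Units.val_one, map_neg, map_one]
  have hodd₁ : OddAt s θ₁ := by
    intro ρ c hρ
    exact ⟨fun h ↦ (hval θ₁ θ hjθ c).2 ((hodd ρ c hρ).1 h),
      fun h ↦ (hval θ₁ θ hjθ c).1 ((hodd ρ c hρ).2 h)⟩
  have hev₁ : ∀ i, EvenAt s (θ₁ * η₁ i) := by
    intro i ρ c hρ
    exact ⟨fun h ↦ (hval (θ₁ * η₁ i) (θ * η i) (hjθη i) c).1 ((hev i ρ c hρ).1 h),
      fun h ↦ (hval (θ₁ * η₁ i) (θ * η i) (hjθη i) c).2 ((hev i ρ c hρ).2 h)⟩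
  have hη₁inj : Function.Injective η₁ := by
    intro i i' h
    apply hη
    ext g
    rw [← hjη, ← hjη, h]
  -- an embedding of `Ω` in `ℂ`
  obtain ⟨ρ₀⟩ : Nonempty (N →+* ℂ) := inferInstance
  obtain ⟨ι', -⟩ := exists_comp_eq (τ 0) ρ₀
  set ε : E →+* ℂ := ι'.comp lam with hεdef
  obtain ⟨ρ, hρ⟩ := exists_extend_embedding (H := N) s
  obtain ⟨m', hm'⟩ : ∃ m' : Fin (n + 1), (ι'.comp (τ m')).comp (algebraMap F N) ≠ s := by
    by_contra hcon
    push Not at hcon
    have h1 : (⟨0, by omega⟩ : Fin (n + 1)) = ⟨1, by omega⟩ := by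
      apply hτinj
      show (τ _).comp (algebraMap F N) = (τ _).comp (algebraMap F N)
      ext y
      apply ι'.injective
      exact RingHom.congr_fun ((hcon ⟨0, by omega⟩).trans (hcon ⟨1, by omega⟩).symm) y
    have h2 := congrArg Fin.val h1
    exact absurd h2 (by norm_num)
  -- nonvanishing
  have hw : ∀ i : Fin D, ∃ w : Additive (𝓞 N)ˣ, tchi (θ₁ * η₁ i) w ≠ 0 := by
    intro i
    obtain ⟨w, hw⟩ := Pool.Agent.Helper94.SLC.nv F N
      ((Units.map (ε : E →* ℂ)).comp (θ₁ * η₁ i)) ρ (by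
        intro h1
        obtain ⟨c, hc⟩ := PkGA7.thm F N ℂ (ι'.comp (τ m'))
          (ComplexEmbedding.conjugate (ι'.comp (τ m'))) (by
            rw [ComplexEmbedding.conjugate_comp, conjugate_real])
        have h2 := (hev₁ i _ c hc).2 hm'
        have h3 : ((Units.map (ε : E →* ℂ)).comp (θ₁ * η₁ i)) c = 1 := by rw [h1]; rfl
        have h4 : ε (((θ₁ * η₁ i) c : Eˣ) : E) = 1 := congrArg (fun z : ℂˣ ↦ (z : ℂ)) h3
        rw [h2, Units.val_neg, Units.val_one, map_neg, map_one] at h4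
        norm_num at h4) (by
        intro c hc
        have h2 := (hev₁ i _ c hc).1 hρ
        apply Units.ext
        show ε (((θ₁ * η₁ i) c : Eˣ) : E) = 1
        rw [h2, Units.val_one, map_one])
    refine ⟨w, fun h0 ↦ hw ?_⟩
    rw [← Phi_eq_tw', h0, map_zero]
  choose w hw using hw
  -- the relations
  have hD0 : 0 < D := by omega
  choose c e hc0 he hc1 hc2 using hrel
  set i₀ : Fin D := ⟨0, hD0⟩ with hi₀
  have hprop : ∀ i, ∃ a : k, c i = a • c i₀ := fun i ↦
    line_of_independent (fun j' ↦ vec Λ θ σ (v j')) hv (c i₀) (c i) (hc0 i₀)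
      (fun j' ↦ hc1 i₀ (v j')) (fun j' ↦ hc1 i (v j'))
  have hc3 : ∀ i u, ∑ m, c i₀ m * (e i m * vec Λ (θ * η i) σ u m) = 0 := by
    intro i u
    obtain ⟨a, ha⟩ := hprop i
    have ha0 : a ≠ 0 := by
      rintro rfl
      apply hc0 i
      rw [ha, zero_smul]
    have h1 := hc2 i u
    rw [ha] at h1
    have h2 : a * ∑ m, c i₀ m * (e i m * vec Λ (θ * η i) σ u m) = 0 := by
      rw [← h1, Finset.mul_sum]
      refine Finset.sum_congr rfl fun m _ ↦ ?_
      rw [Pi.smul_apply, smul_eq_mul]; ring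
    exact (mul_eq_zero.mp h2).resolve_left ha0
  obtain ⟨m₀, hm₀⟩ : ∃ m₀, c i₀ m₀ ≠ 0 := by
    by_contra hcon
    push Not at hcon
    exact hc0 i₀ (funext hcon)
  -- the signs in `E`
  have hsign : ∀ i m, ∃ s' : E, j s' = e i m ∧ s' ≠ 0 := by
    intro i m
    rcases he i m with h | h
    · exact ⟨1, by rw [h, map_one], one_ne_zero⟩
    · exact ⟨-1, by rw [h, map_neg, map_one], neg_ne_zero.mpr one_ne_zero⟩
  choose e₁ he₁ he₁0 using hsign
  -- the matrix
  let M' : Fin (n + 1) → (Fin n ⊕ Fin D) → k := fun m ↦ Sum.elim (fun j' ↦ vec Λ θ σ (v j') m)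
    (fun i ↦ e i m * vec Λ (θ * η i) σ (w i) m)
  have hM' : ∀ q, ∑ m, c i₀ m * M' m q = 0 := by
    rintro (j' | i)
    · exact hc1 i₀ (v j')
    · exact hc3 i (w i)
  let M : Fin (n + 1) → Fin (n + D) → k := fun m q ↦ M' m (finSumFinEquiv.symm q)
  let b' : Fin (n + 1) → (Fin n ⊕ Fin D) → (N ≃ₐ[F] N) → E := fun m ↦
    Sum.elim (fun _ g ↦ ((θ₁ g⁻¹ : Eˣ) : E)) (fun i g ↦ e₁ i m * (((θ₁ * η₁ i) g⁻¹ : Eˣ) : E))
  let y' : Fin (n + 1) → (Fin n ⊕ Fin D) → (N ≃ₐ[F] N) → Ωˣ := fun m ↦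
    Sum.elim (fun j' g ↦ img (τ m) (unitsHom g (v j')).toMul)
      (fun i g ↦ img (τ m) (unitsHom g (w i)).toMul)
  have hb' : ∀ m q, M' m q = ∑ g, ιp (lam (b' m q g)) *
      Λ.toFun (Units.map (ιp : Ω →* k) (y' m q g)) := by
    rintro m (j' | i)
    · show tw θ (logUnits Λ (σ m)) (v j') = ∑ g, ιp (lam ((θ₁ g⁻¹ : Eˣ) : E)) *
        Λ.toFun (Units.map (ιp : Ω →* k) (img (τ m) (unitsHom g (v j')).toMul))
      unfold tw
      refine Finset.sum_congr rfl fun g _ ↦ ?_
      rw [log_img, hτ m]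
      congr 1
      exact (hjθ g⁻¹).symm
    · show e i m * tw (θ * η i) (logUnits Λ (σ m)) (w i) =
        ∑ g, ιp (lam (e₁ i m * (((θ₁ * η₁ i) g⁻¹ : Eˣ) : E))) *
        Λ.toFun (Units.map (ιp : Ω →* k) (img (τ m) (unitsHom g (w i)).toMul))
      unfold tw
      rw [Finset.mul_sum]
      refine Finset.sum_congr rfl fun g _ ↦ ?_
      rw [log_img, hτ m, ← mul_assoc]
      congr 1
      have h5 : ιp (lam (e₁ i m * (((θ₁ * η₁ i) g⁻¹ : Eˣ) : E))) =
          j (e₁ i m) * j (((θ₁ * η₁ i) g⁻¹ : Eˣ) : E) := map_mul j _ _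
      rw [h5, he₁, hjθη]
  have hy' : ∀ m q g, IsUnitAlg (y' m q g) := by
    rintro m (j' | i) g
    · exact img_isUnitAlg _ _
    · exact img_isUnitAlg _ _
  let X : Fin (n + 1) → Fin n → k := fun m t ↦
    if m = m₀ then -(c i₀ (m₀.succAbove t) / c i₀ m₀) else if m = m₀.succAbove t then 1 else 0
  have hX : ∀ m q, M' m q = ∑ t, X m t * M' (m₀.succAbove t) q := by
    intro m q
    by_cases hm : m = m₀
    · subst hm
      have h1 := hM' q
      rw [Fin.sum_univ_succAbove _ m] at h1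
      have h2 : ∀ t, X m t = -(c i₀ (m.succAbove t) / c i₀ m) := fun t ↦ if_pos rfl
      simp only [h2]
      apply mul_left_cancel₀ hm₀
      rw [Finset.mul_sum]
      have h3 : ∑ t, c i₀ m * (-(c i₀ (m.succAbove t) / c i₀ m) * M' (m.succAbove t) q) =
          -∑ t, c i₀ (m.succAbove t) * M' (m.succAbove t) q := by
        rw [← Finset.sum_neg_distrib]
        refine Finset.sum_congr rfl fun t _ ↦ ?_
        field_simp
      rw [h3]
      exact eq_neg_of_add_eq_zero_left h1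
    · obtain ⟨t₀, rfl⟩ := Fin.exists_succAbove_eq hm
      rw [Finset.sum_eq_single t₀]
      · have h4 : X (m₀.succAbove t₀) t₀ = 1 := by
          show (if _ then _ else if _ then _ else _) = _
          rw [if_neg hm, if_pos rfl]
        rw [h4, one_mul]
      · intro t _ ht
        have h4 : X (m₀.succAbove t₀) t = 0 := by
          show (if _ then _ else if _ then _ else _) = _
          rw [if_neg hm, if_neg]
          intro h5
          exact ht (Fin.succAbove_right_injective h5).symm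
        rw [h4, zero_mul]
      · intro h; exact absurd (Finset.mem_univ _) h
  have hineq : n * (n + 1 + (n + D)) < (n + 1) * (n + D) := by
    have hD' : n ^ 2 < D := hD
    nlinarith
  obtain ⟨a, c', ha0, hc'0, hac⟩ := hRANK p k Ω ιp Λ E lam (n + 1) (n + D) n (N ≃ₐ[F] N)
    (fun m q g ↦ b' m (finSumFinEquiv.symm q) g) (fun m q g ↦ y' m (finSumFinEquiv.symm q) g) M X
    (fun t q ↦ M' (m₀.succAbove t) (finSumFinEquiv.symm q))
    (fun m q g ↦ hy' m (finSumFinEquiv.symm q) g) (fun m q ↦ hb' m (finSumFinEquiv.symm q))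
    (fun m q ↦ hX m (finSumFinEquiv.symm q)) hineq
  -- the coefficients
  let x' : Fin n → E := fun j' ↦ c' (finSumFinEquiv (Sum.inl j'))
  let z' : Fin D → E := fun i ↦ c' (finSumFinEquiv (Sum.inr i))
  have hxz : x' ≠ 0 ∨ z' ≠ 0 := by
    by_contra hcon
    push Not at hcon
    apply hc'0
    funext q
    obtain ⟨q', rfl⟩ := finSumFinEquiv.surjective q
    rcases q' with j' | i
    · exact congrFun hcon.1 j'
    · exact congrFun hcon.2 i
  have hindE : LinearIndependent E (fun j' : Fin n ↦ tchi θ₁ (v j')) := by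
    rw [Fintype.linearIndependent_iff]
    intro g hg
    rw [Fintype.linearIndependent_iff] at hv
    have h1 := hv (fun j' ↦ j (g j')) (by
      funext m
      rw [Finset.sum_apply, Pi.zero_apply]
      have h2 := congrArg (Phi j (logUnits Λ (σ m))) hg
      rw [map_sum, map_zero] at h2
      rw [← h2]
      refine Finset.sum_congr rfl fun j' _ ↦ ?_
      rw [Phi_smul, Phi_eq_tw j θ₁ θ hjθ]
      rfl)
    intro j'
    have h3 : j (g j') = 0 := h1 j'
    exact (map_eq_zero j).mp h3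
  refine hND F N Ω p k ιp Λ E lam θ₁ n D (n + 1) η₁ s τ v w (fun i m ↦ e₁ i m) hn hτinj hodd₁
    hev₁ hη₁inj he₁0 hindE hw a x' z' ha0 hxz ?_
  rw [← hac]
  refine Finset.sum_congr rfl fun m _ ↦ ?_
  have hsum : ∑ q, ιp (lam (a m)) * ιp (lam (c' q)) * M m q =
      ∑ q', ιp (lam (a m)) * ιp (lam (c' (finSumFinEquiv q'))) * M' m q' := by
    rw [← Equiv.sum_comp finSumFinEquiv]
    refine Finset.sum_congr rfl fun q' _ ↦ ?_
    show _ * M' m (finSumFinEquiv.symm (finSumFinEquiv q')) = _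
    rw [Equiv.symm_apply_apply]
  rw [hsum, Fintype.sum_sum_type, mul_add, Finset.mul_sum, Finset.mul_sum]
  congr 1
  · refine Finset.sum_congr rfl fun j' _ ↦ ?_
    rw [Phi_eq_tw (ιp.comp lam) θ₁ θ hjθ, hτ m, mul_assoc]
    rfl
  · refine Finset.sum_congr rfl fun i _ ↦ ?_
    rw [Phi_eq_tw (ιp.comp lam) (θ₁ * η₁ i) (θ * η i) (hjθη i), hτ m, mul_assoc]
    have h5 : ιp (lam (z' i * e₁ i m)) = ιp (lam (z' i)) * e i m := by
      rw [map_mul, map_mul]
      congr 1
      exact he₁ i m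
    rw [h5, mul_assoc]
    rfl

end Pool.Agent.Helper17.SLD.PkFIN
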